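import Pool.Agent.K3h5.IB.Stm

/-!
# Project IB, brick IND: all the graphs of the model are nice (helper19)
-/

set_option autoImplicit false

open MeasureTheory Filter Topology

namespace Pool.Agent.K3h19.IB

open Pool.Agent.K3h5.IB

variable {d : ℕ}

theorem vec_opp (e : D d) : vec (opp e) = - vec e := by
  obtain ⟨j, b⟩ := e
  cases b <;> simp [vec, opp, Pi.single_neg]

theorem vec_inj {e e' : D d} (h : vec e = vec e') : e = e' := by
  obtain ⟨j, b⟩ := e
  obtain ⟨j', b'⟩ := e'
  have h1 := congrFun h j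
  by_cases hj : j = j'
  · subst hj
    cases b <;> cases b' <;> simp [vec] at h1 ⊢
  · exfalso
    have : (vec (j', b') : V d) j = 0 := by
      simp [vec, hj]
    rw [this] at h1
    cases b <;> simp [vec] at h1

theorem add_vec_opp (v : V d) (e : D d) : v + vec e + vec (opp e) = v := by
  rw [vec_opp]; abel

theorem opp_opp (e : D d) : opp (opp e) = e := by
  obtain ⟨j, b⟩ := e
  simp [opp]

theorem trace_sym (y : ℕ → V d) (v : V d) (e : D d) (h : (v, e) ∈ trace y) :
    (v + vec e, opp e) ∈ trace y := by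
  obtain ⟨n, h⟩ := h
  refine ⟨n, ?_⟩
  simp only [add_vec_opp]
  rcases h with h | h
  · exact Or.inr ⟨h.2, h.1⟩
  · exact Or.inl ⟨h.2, h.1⟩

/-- The trace of a walk on a symmetric graph is a subgraph. -/
theorem trace_sub (Z : Set (V d × D d)) (y : ℕ → V d)
    (sym : ∀ v e, (v, e) ∈ Z → (v + vec e, opp e) ∈ Z)
    (h : ∀ n, ∃ e, (y n, e) ∈ Z ∧ y (n + 1) = y n + vec e) : trace y ⊆ Z := by
  rintro ⟨v, e⟩ ⟨n, hn⟩
  obtain ⟨e', he', hy⟩ := h n
  rcases hn with ⟨h1, h2⟩ | ⟨h1, h2⟩
  · simp only at h1 h2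
    have : e' = e := by
      apply vec_inj
      rw [h2, h1] at hy
      exact (add_left_cancel hy).symm
    rw [← h1, ← this]; exact he'
  · simp only at h1 h2
    have h3 : vec e' = vec (opp e) := by
      rw [vec_opp]
      rw [h1, h2] at hy
      have : v + (vec e + vec e') = v + 0 := by rw [add_zero, ← add_assoc]; exact hy.symm
      have := add_left_cancel this
      exact eq_neg_of_add_eq_zero_right this
    have h4 := vec_inj h3
    have h5 := sym _ _ he'
    rw [← hy, h1, h4, opp_opp] at h5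
    exact h5

/-- along a walk on `Z` everything is connected up to time `n` -/
theorem conn_walk (Z : Set (V d × D d)) (y : ℕ → V d) (h0 : y 0 = 0) (n : ℕ)
    (h : ∀ k < n, ∃ e, (y k, e) ∈ Z ∧ y (k + 1) = y k + vec e) : Conn Z 0 (y n) := by
  induction n with
  | zero => rw [h0]; exact Relation.ReflTransGen.refl
  | succ n ih =>
    refine Relation.ReflTransGen.tail (ih fun k hk => h k (by omega)) ?_
    obtain ⟨e, he, hy⟩ := h n (by omega)
    exact ⟨e, he, hy⟩

theorem path0_succ (x : ℕ → S d) (n : ℕ) : path0 x (n + 1) = path0 x n + vec (x n none) := by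
  simp [path0, Finset.sum_range_succ]

theorem path0_zero (x : ℕ → S d) : path0 x 0 = 0 := by
  simp [path0]

theorem path0_mem_trace (x : ℕ → S d) (n : ℕ) : (path0 x n, x n none) ∈ trace (path0 x) :=
  ⟨n, Or.inl ⟨rfl, path0_succ x n⟩⟩

/-- the first level -/
theorem nice_zero (δ : Fin d → ℝ) (x : ℕ → S d) : NiceG δ x (trace (path0 x)) where
  sym := trace_sym _
  sub := subset_rfl
  cut := fun c _ => path0_mem_trace x c
  conn := fun c _ => conn_walk _ _ (path0_zero x) c
    fun k _ => ⟨x k none, path0_mem_trace x k, path0_succ x k⟩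

/-- the step -/
theorem nice_step (hC : S_CROSS) (δ : Fin d → ℝ) (x : ℕ → S d) (hx : Good δ x)
    (Z : Set (V d × D d)) (hZ : NiceG δ x Z) (i : ℕ) :
    trace (route (stk x i Z)) ⊆ Z ∧ NiceG δ x (trace (route (stk x i Z))) := by
  obtain ⟨h0, -, hst, -, hc⟩ := hC d δ x hx Z hZ i _ rfl
  have hsub := trace_sub Z _ hZ.sym hst
  refine ⟨hsub, trace_sym _, hsub.trans hZ.sub, fun c hcut => (hc c hcut).2.2.2, ?_⟩
  intro c hcut
  obtain ⟨n, hn, -⟩ := (hc c hcut).2.2.1
  rw [← hn]
  refine conn_walk _ _ h0 n fun k _ => ?_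
  obtain ⟨e, -, he⟩ := hst k
  exact ⟨e, ⟨k, Or.inl ⟨rfl, he⟩⟩, he⟩

theorem nice_graph (hC : S_CROSS) (δ : Fin d → ℝ) (x : ℕ → S d) (hx : Good δ x) (i : ℕ) :
    NiceG δ x (graph (XX x) (i + 1)) := by
  induction i with
  | zero => exact nice_zero δ x
  | succ i ih => exact (nice_step hC δ x hx _ ih (i + 1)).2

theorem graph_succ_sub (hC : S_CROSS) (δ : Fin d → ℝ) (x : ℕ → S d) (hx : Good δ x) (i : ℕ) :
    graph (XX x) (i + 2) ⊆ graph (XX x) (i + 1) :=
  (nice_step hC δ x hx _ (nice_graph hC δ x hx i) (i + 1)).1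

theorem graph_anti (hC : S_CROSS) (δ : Fin d → ℝ) (x : ℕ → S d) (hx : Good δ x) {i j : ℕ}
    (h : i ≤ j) : graph (XX x) (j + 1) ⊆ graph (XX x) (i + 1) := by
  induction j, h using Nat.le_induction with
  | base => exact subset_rfl
  | succ j _ ih => exact (graph_succ_sub hC δ x hx j).trans ih

theorem mem_graphInf (x : ℕ → S d) (a : V d × D d) :
    a ∈ graphInf (XX x) ↔ ∀ i, a ∈ graph (XX x) (i + 1) := by
  unfold graphInf
  rw [Set.mem_iInter]
  constructor
  · intro h i; exact h (i + 1)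
  · intro h i
    cases i with
    | zero => exact Set.mem_univ _
    | succ i => exact h i

theorem nice_inf (hG : S_CUTG) (hC : S_CROSS) (δ : Fin d → ℝ) (x : ℕ → S d) (hx : Good δ x) :
    NiceG δ x (graphInf (XX x)) where
  sym := by
    intro v e h
    rw [mem_graphInf] at h ⊢
    exact fun i => (nice_graph hC δ x hx i).sym v e (h i)
  sub := fun a ha => (nice_graph hC δ x hx 0).sub ((mem_graphInf x a).1 ha 0)
  cut := by
    intro c hc
    rw [mem_graphInf]
    exact fun i => (nice_graph hC δ x hx i).cut c hc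
  conn := by
    intro c hc
    set F : Set (V d × D d) :=
      {a | a ∈ trace (path0 x) ∧ ht δ a.1 ≤ ht δ (path0 x c)} with hF
    have hfin : F.Finite := by
      have h1 : ((Set.Iic c).image (path0 x) ×ˢ (Set.univ : Set (D d))).Finite :=
        ((Set.finite_Iic c).image _).prod Set.finite_univ
      refine h1.subset ?_
      rintro ⟨v, e⟩ ⟨h2, h3⟩
      obtain ⟨k, hk, hv⟩ := ((hG d δ x hx).2.2.1 c hc).2.1 v e h2 h3
      exact ⟨⟨k, hk, hv⟩, Set.mem_univ _⟩
    have hex : ∀ a : V d × D d, ∃ i, a ∈ graph (XX x) (i + 1) → a ∈ graphInf (XX x) := by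
      intro a
      by_contra hcon
      push Not at hcon
      exact (hcon 0).2 ((mem_graphInf x a).2 fun i => (hcon i).1)
    choose f hf using hex
    obtain ⟨N, hN⟩ := (hfin.image f).bddAbove
    have hkey : ∀ a ∈ F, a ∈ graph (XX x) (N + 1) → a ∈ graphInf (XX x) := by
      intro a ha h
      exact hf a (graph_anti hC δ x hx (hN ⟨a, ha, rfl⟩) h)
    have hZ := nice_graph hC δ x hx N
    obtain ⟨h0, -, hst, -, hcc⟩ := hC d δ x hx _ hZ (N + 1) _ rfl
    obtain ⟨n, hn, hle⟩ := (hcc c hc).2.2.1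
    rw [← hn]
    refine conn_walk _ _ h0 n fun k hk => ?_
    obtain ⟨e, he, hy⟩ := hst k
    exact ⟨e, hkey _ ⟨hZ.sub he, hle k hk.le⟩ he, hy⟩

/-- **IND**: all the graphs are nice. -/
theorem t_IND : S_ROUTE → S_FAIR → S_CUTG → S_NICE → S_CROSS → S_IND :=
  fun _ _ hG _ hC _ δ x hx => ⟨nice_graph hC δ x hx, nice_inf hG hC δ x hx⟩

end Pool.Agent.K3h19.IB
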